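import Pool.Agent.Lib.MP_c7af3c_ag.T2C.H90.Bu
import Pool.Agent.Lib.MP_c7af3c_ag.T2C.IfaceB

/-!
# MP_c7af3c_ag, project T2C: row BU
-/

set_option autoImplicit false

namespace Pool.Agent.T2C.H90

open MvPolynomial

theorem bu : BuStatement := by
  classical
  intro Ω _ _ ι U Q _ _ _ _ _ _ _ b hdim hall
  set r := Module.finrank Ω U with hr
  obtain ⟨P, hP, hT⟩ := good_of_hall (r * r + 1) r (Nat.le_succ _) U Q b hr.symm hdim.symm hall
  obtain ⟨T, hTP⟩ : ∃ T : ι × Fin (r * r + 1) × Fin (r * r + 1) → ℤ,
      eval (fun t => (T t : Ω)) P ≠ 0 := by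
    by_contra hcon
    push Not at hcon
    apply hP
    apply MvPolynomial.funext_set (fun _ => Set.range ((↑) : ℤ → Ω))
      (fun _ => Set.infinite_range_of_injective Int.cast_injective)
    intro x hx
    choose T hTx using fun t => hx t (Set.mem_univ t)
    have h1 : x = fun t => (T t : Ω) := by
      funext t; exact (hTx t).symm
    rw [h1, hcon T, map_zero]
  refine ⟨r * r + 1, fun i p q => T (i, p, q), Nat.succ_pos _, ?_⟩
  let L : (Fin (r * r + 1) → U) →ₗ[Ω] (Fin (r * r + 1) → Q) :=
    { toFun := fun u p => ∑ i, ∑ q, (T (i, p, q) : Ω) • b i (u q)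
      map_add' := fun u v => by
        funext p
        simp only [Pi.add_apply, map_add, smul_add, Finset.sum_add_distrib]
      map_smul' := fun a u => by
        funext p
        simp only [Pi.smul_apply, map_smul, RingHom.id_apply, Finset.smul_sum]
        refine Finset.sum_congr rfl fun i _ => Finset.sum_congr rfl fun q _ => ?_
        rw [smul_comm] }
  have hinj : Function.Injective L := by
    rw [← LinearMap.ker_eq_bot, LinearMap.ker_eq_bot']
    intro φ hφ
    exact hT _ hTP φ fun p => congrFun hφ p
  have hfr : Module.finrank Ω (Fin (r * r + 1) → U) = Module.finrank Ω (Fin (r * r + 1) → Q) := by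
    rw [Module.finrank_pi_fintype, Module.finrank_pi_fintype]
    simp [← hr, hdim]
  exact ⟨hinj, (LinearMap.injective_iff_surjective_of_finrank_eq_finrank hfr).1 hinj⟩

end Pool.Agent.T2C.H90
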