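import Mathlib

/-!
# MP_c7af3c_ag, project T2C: nonsingular blow-ups of a space of linear maps
`b i : U → G`, `dim U = dim G`. If `dim U' ≤ dim (∑ i, b i U')` for all subspaces `U'` of `U`
(Hall's condition) then for some `N` and some integer matrices `T i` of size `N` the map
`∑ i, T i ⊗ b i : U ^ N → G ^ N` is bijective.
-/

set_option autoImplicit false

namespace Pool.Agent.T2C.H90

open MvPolynomial

section Trdeg

variable {Ω 𝕂 : Type} [Field Ω] [Field 𝕂] [Algebra Ω 𝕂]

theorem card_le_of_adjoin {σ : Type} [Fintype σ] (x : σ → 𝕂) (hx : AlgebraicIndependent Ω x)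
    (s : Finset 𝕂) (h : IntermediateField.adjoin Ω (s : Set 𝕂) = ⊤) :
    Fintype.card σ ≤ s.card := by
  classical
  have : Algebra.IsAlgebraic (Algebra.adjoin Ω (s : Set 𝕂)) 𝕂 := by
    constructor
    intro a
    have ha : a ∈ IntermediateField.adjoin Ω (s : Set 𝕂) := by rw [h]; trivial
    obtain ⟨u, hu, w, hw, rfl⟩ := IntermediateField.mem_adjoin_iff_div.1 ha
    by_cases hw0 : w = 0
    · subst hw0
      simpa using isAlgebraic_zero
    · refine ⟨Polynomial.C (⟨w, hw⟩ : Algebra.adjoin Ω (s : Set 𝕂)) * Polynomial.X -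
        Polynomial.C ⟨u, hu⟩, ?_, ?_⟩
      · intro h0
        have := congrArg (fun p => Polynomial.coeff p 1) h0
        simp at this
        exact hw0 (congrArg Subtype.val this)
      · simp only [map_sub, map_mul, Polynomial.aeval_C, Polynomial.aeval_X]
        change w * (u / w) - u = 0
        field_simp
        ring
  have h1 := hx.cardinalMk_le_trdeg
  have h2 := Algebra.IsAlgebraic.trdeg_le_cardinalMk Ω (s : Set 𝕂)
  have h3 := h1.trans h2
  simpa using h3

/-- Coordinates of a subspace: `κ` coordinates determine the vectors of `U'`. -/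
theorem exists_coord {r : ℕ} (U' : Submodule 𝕂 (Fin r → 𝕂)) :
    ∃ (a : Fin (Module.finrank 𝕂 U') → Fin r) (β : Fin (Module.finrank 𝕂 U') → Fin r → 𝕂),
      Function.Injective a ∧ (∀ j j', β j (a j') = if j = j' then 1 else 0) ∧
      ∀ w ∈ U', w = ∑ j, w (a j) • β j := by
  classical
  let v : Fin r → Module.Dual 𝕂 U' := fun k => (LinearMap.proj k).comp U'.subtype
  obtain ⟨κ, a, ha, hspan, hli⟩ := exists_linearIndependent' 𝕂 v
  have hfin : Finite κ := Finite.of_injective a ha
  have hfin' : Fintype κ := Fintype.ofFinite κ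
  have hzero : ∀ w : U', (∀ j, v (a j) w = 0) → w = 0 := by
    intro w hw
    have h1 : ∀ φ ∈ Submodule.span 𝕂 (Set.range (v ∘ a)), φ w = 0 := by
      intro φ hφ
      induction hφ using Submodule.span_induction with
      | mem x hx => obtain ⟨j, rfl⟩ := hx; exact hw j
      | zero => rfl
      | add x y _ _ hx hy => simp [hx, hy]
      | smul c x _ hx => simp [hx]
    apply Subtype.ext
    funext k
    exact h1 (v k) (by rw [hspan]; exact Submodule.subset_span ⟨k, rfl⟩)
  have hcard : Fintype.card κ = Module.finrank 𝕂 U' := by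
    apply le_antisymm
    · have := hli.fintype_card_le_finrank
      rwa [Subspace.dual_finrank_eq] at this
    · let L : U' →ₗ[𝕂] (κ → 𝕂) := LinearMap.pi fun j => v (a j)
      have hL : Function.Injective L := by
        rw [← LinearMap.ker_eq_bot, LinearMap.ker_eq_bot']
        intro w hw
        exact hzero w fun j => congrFun hw j
      have := LinearMap.finrank_le_finrank_of_injective hL
      simpa using this
  let e : Fin (Module.finrank 𝕂 U') ≃ κ := (Fintype.equivFinOfCardEq hcard).symm
  let L : U' →ₗ[𝕂] (Fin (Module.finrank 𝕂 U') → 𝕂) := LinearMap.pi fun j => v (a (e j))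
  have hL : Function.Injective L := by
    rw [← LinearMap.ker_eq_bot, LinearMap.ker_eq_bot']
    intro w hw
    apply hzero w
    intro j
    have := congrFun hw (e.symm j)
    simpa [L] using this
  let Le := LinearEquiv.ofInjectiveOfFinrankEq L hL (by simp)
  have hLe : ∀ w, Le w = L w := fun w => rfl
  refine ⟨a ∘ e, fun j => (Le.symm (Pi.single j 1) : U'), ha.comp e.injective, ?_, ?_⟩
  · intro j j'
    have h1 : L (Le.symm (Pi.single j 1)) j' = (Pi.single j 1 : Fin _ → 𝕂) j' := by
      rw [← hLe, LinearEquiv.apply_symm_apply]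
    have h2 : L (Le.symm (Pi.single j 1)) j' = ((Le.symm (Pi.single j 1) : U') : Fin r → 𝕂) (a (e j')) :=
      rfl
    change ((Le.symm (Pi.single j 1) : U') : Fin r → 𝕂) (a (e j')) = _
    rw [← h2, h1, Pi.single_apply]
    by_cases hjj : j = j'
    · simp [hjj]
    · simp [hjj, Ne.symm hjj]
  · intro w hw
    have h1 : (⟨w, hw⟩ : U') = ∑ j, w (a (e j)) • Le.symm (Pi.single j 1) := by
      apply Le.injective
      rw [map_sum]
      simp only [map_smul, LinearEquiv.apply_symm_apply]
      funext k
      rw [hLe]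
      simp [L, v, Finset.sum_apply, Pi.single_apply]
    have h2 := congrArg (Subtype.val) h1
    simpa using h2

/-- The dimension count for a kernel vector of the generic blow-up. -/
theorem count {r N : ℕ} {ι : Type} [Fintype ι] [DecidableEq ι] (b : ι → Matrix (Fin r) (Fin r) Ω)
    (T : ι × Fin N × Fin N → 𝕂) (hT : AlgebraicIndependent Ω T)
    (hgen : IntermediateField.adjoin Ω (Set.range T) = ⊤)
    (φ : Fin N → Fin r → 𝕂) (hφ : φ ≠ 0)
    (hker : ∀ p k, ∑ iq : ι × Fin N, T (iq.1, p, iq.2) *
      ((b iq.1).map (algebraMap Ω 𝕂)).mulVec (φ iq.2) k = 0) :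
    N * Module.finrank 𝕂 (Submodule.span 𝕂 (Set.range fun iq : ι × Fin N =>
        ((b iq.1).map (algebraMap Ω 𝕂)).mulVec (φ iq.2))) + 1 ≤
      Module.finrank 𝕂 (Submodule.span 𝕂 (Set.range φ)) *
        (r - Module.finrank 𝕂 (Submodule.span 𝕂 (Set.range φ))) +
      N * Module.finrank 𝕂 (Submodule.span 𝕂 (Set.range φ)) := by
  classical
  have hco := exists_coord (Submodule.span 𝕂 (Set.range φ))
  have hφU : ∀ q, φ q ∈ Submodule.span 𝕂 (Set.range φ) :=
    fun q => Submodule.subset_span ⟨q, rfl⟩
  have hule : Module.finrank 𝕂 (Submodule.span 𝕂 (Set.range φ)) ≤ r := by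
    simpa using Submodule.finrank_le (Submodule.span 𝕂 (Set.range φ))
  generalize Module.finrank 𝕂 (Submodule.span 𝕂 (Set.range φ)) = u at hco hule ⊢
  obtain ⟨a, β, ha, hβ, hrep⟩ := hco
  obtain ⟨q0, j0, h0⟩ : ∃ q0 j0, φ q0 (a j0) ≠ 0 := by
    by_contra hcon
    push Not at hcon
    apply hφ
    funext q
    rw [hrep _ (hφU q)]
    simp [hcon]
  set c := (φ q0 (a j0))⁻¹ with hc
  have hc0 : c ≠ 0 := inv_ne_zero h0
  let ψ : Fin N → Fin r → 𝕂 := fun q => c • φ q
  have hψ0 : ψ q0 (a j0) = 1 := by simp [ψ, hc, h0]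
  have hψrep : ∀ q k, ψ q k = ∑ j, ψ q (a j) * β j k := by
    intro q k
    have := congrFun (hrep _ (hφU q)) k
    simp only [Finset.sum_apply, Pi.smul_apply, smul_eq_mul] at this
    simp only [ψ, Pi.smul_apply, smul_eq_mul]
    rw [this, Finset.mul_sum]
    exact Finset.sum_congr rfl fun j _ => by ring
  let s1 : Finset 𝕂 := Finset.image (fun jk : Fin u × Fin r => β jk.1 jk.2)
    (Finset.univ ×ˢ (Finset.univ \ Finset.image a Finset.univ))
  let s2 : Finset 𝕂 := Finset.image (fun qj : Fin N × Fin u => ψ qj.1 (a qj.2))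
    (Finset.univ.erase (q0, j0))
  have hs1 : s1.card ≤ u * (r - u) := by
    refine Finset.card_image_le.trans ?_
    rw [Finset.card_product, Finset.card_sdiff_of_subset (Finset.subset_univ _),
      Finset.card_image_of_injective _ ha]
    simp
  have hs2 : s2.card ≤ N * u - 1 := by
    refine Finset.card_image_le.trans ?_
    rw [Finset.card_erase_of_mem (Finset.mem_univ _)]
    simp
  set E : IntermediateField Ω 𝕂 := IntermediateField.adjoin Ω ((s1 ∪ s2 : Finset 𝕂) : Set 𝕂)
    with hE
  have hβE : ∀ j k, β j k ∈ E := by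
    intro j k
    by_cases hk : k ∈ Finset.image a Finset.univ
    · obtain ⟨j', -, rfl⟩ := Finset.mem_image.1 hk
      rw [hβ]
      split_ifs
      · exact one_mem _
      · exact zero_mem _
    · apply IntermediateField.subset_adjoin
      simp only [Finset.coe_union, Set.mem_union, Finset.mem_coe]
      left
      exact Finset.mem_image.2 ⟨(j, k), by simpa using hk, rfl⟩
  have hψE : ∀ q k, ψ q k ∈ E := by
    intro q k
    rw [hψrep]
    refine sum_mem fun j _ => mul_mem ?_ (hβE j k)
    by_cases hqj : (q, j) = (q0, j0)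
    · obtain ⟨rfl, rfl⟩ := Prod.mk.inj hqj
      rw [hψ0]; exact one_mem _
    · apply IntermediateField.subset_adjoin
      simp only [Finset.coe_union, Set.mem_union, Finset.mem_coe]
      right
      exact Finset.mem_image.2 ⟨(q, j), by simpa using hqj, rfl⟩
  have hwE : ∀ (iq : ι × Fin N) k,
      ((b iq.1).map (algebraMap Ω 𝕂)).mulVec (ψ iq.2) k ∈ E := by
    intro iq k
    simp only [Matrix.mulVec, dotProduct, Matrix.map_apply]
    exact sum_mem fun l _ => mul_mem (algebraMap_mem E _) (hψE _ _)
  let w : ι × Fin N → Fin r → E := fun iq k => ⟨_, hwE iq k⟩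
  obtain ⟨κ', a', ha', hspan', hli'⟩ := exists_linearIndependent' E w
  have hfin : Finite κ' := Finite.of_injective a' ha'
  have hfin' : Fintype κ' := Fintype.ofFinite κ'
  obtain ⟨g, hg⟩ := LinearMap.exists_leftInverse_of_injective
    (Fintype.linearCombination E (w ∘ a')) (LinearMap.ker_eq_bot.2
      (linearIndependent_iff_injective_fintypeLinearCombination.1 hli'))
  let lam : κ' → ι × Fin N → E := fun j iq => g (w iq) j
  have hlam : ∀ j j', lam j (a' j') = if j = j' then 1 else 0 := by
    intro j j'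
    have h1 := LinearMap.congr_fun hg (Pi.single j' 1)
    have h2 := congrFun h1 j
    simp only [LinearMap.comp_apply, Fintype.linearCombination_apply, LinearMap.id_apply] at h2
    have h3 : (∑ i, (Pi.single j' (1 : E) : κ' → E) i • (w ∘ a') i) = w (a' j') := by
      rw [Finset.sum_eq_single j']
      · simp
      · intro i _ hi; simp [Pi.single_apply, hi]
      · simp
    rw [h3, Pi.single_apply] at h2
    exact h2
  have hgw : ∀ j iq, (lam j iq : 𝕂) = ∑ k, (g (Pi.single k 1) j : 𝕂) *
      ((b iq.1).map (algebraMap Ω 𝕂)).mulVec (ψ iq.2) k := by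
    intro j iq
    have h1 : w iq = ∑ k, w iq k • (Pi.single k (1 : E) : Fin r → E) := by
      funext k
      simp [Finset.sum_apply, Pi.single_apply]
    have h2 : lam j iq = ∑ k, w iq k * g (Pi.single k 1) j := by
      change g (w iq) j = _
      conv_lhs => rw [h1]
      simp [Finset.sum_apply]
    rw [h2]
    push_cast
    exact Finset.sum_congr rfl fun k _ => by rw [mul_comm]
  have hsolve : ∀ p j, ∑ iq : ι × Fin N, T (iq.1, p, iq.2) * (lam j iq : 𝕂) = 0 := by
    intro p j
    have h1 : ∀ iq : ι × Fin N, T (iq.1, p, iq.2) * (lam j iq : 𝕂) =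
        ∑ k, (g (Pi.single k 1) j : 𝕂) * (c * (T (iq.1, p, iq.2) *
          ((b iq.1).map (algebraMap Ω 𝕂)).mulVec (φ iq.2) k)) := by
      intro iq
      rw [hgw, Finset.mul_sum]
      refine Finset.sum_congr rfl fun k _ => ?_
      simp only [ψ, Matrix.mulVec_smul, Pi.smul_apply, smul_eq_mul]
      ring
    simp_rw [h1]
    rw [Finset.sum_comm]
    refine Finset.sum_eq_zero fun k _ => ?_
    rw [← Finset.mul_sum, ← Finset.mul_sum, hker]
    simp
  let s3 : Finset 𝕂 := Finset.image (fun t : (ι × Fin N) × Fin N => T (t.1.1, t.2, t.1.2))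
    ((Finset.univ \ Finset.image a' Finset.univ) ×ˢ Finset.univ)
  have hκ : Fintype.card κ' ≤ Fintype.card ι * N := by
    have := Fintype.card_le_of_injective a' ha'
    simpa using this
  have hs3 : s3.card ≤ (Fintype.card ι * N - Fintype.card κ') * N := by
    refine Finset.card_image_le.trans ?_
    rw [Finset.card_product, Finset.card_sdiff_of_subset (Finset.subset_univ _),
      Finset.card_image_of_injective _ ha']
    simp
  have hEF : E ≤ IntermediateField.adjoin Ω ((s1 ∪ s2 ∪ s3 : Finset 𝕂) : Set 𝕂) := by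
    apply IntermediateField.adjoin.mono
    rw [Finset.coe_subset]
    exact Finset.subset_union_left
  have hTF : ∀ t, T t ∈ IntermediateField.adjoin Ω ((s1 ∪ s2 ∪ s3 : Finset 𝕂) : Set 𝕂) := by
    rintro ⟨i, p, q⟩
    have hout : ∀ iq : ι × Fin N, iq ∉ Finset.image a' Finset.univ →
        T (iq.1, p, iq.2) ∈ IntermediateField.adjoin Ω ((s1 ∪ s2 ∪ s3 : Finset 𝕂) : Set 𝕂) := by
      intro iq hiq
      apply IntermediateField.subset_adjoin
      simp only [Finset.coe_union, Set.mem_union, Finset.mem_coe]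
      right
      exact Finset.mem_image.2 ⟨(iq, p), by simpa using hiq, rfl⟩
    by_cases hiq : (i, q) ∈ Finset.image a' Finset.univ
    · obtain ⟨j, -, hj⟩ := Finset.mem_image.1 hiq
      have h1 := hsolve p j
      rw [← Finset.add_sum_erase _ _ (Finset.mem_univ (a' j)), hlam, if_pos rfl] at h1
      have h2 : T (i, p, q) = -∑ iq ∈ Finset.univ.erase (a' j), T (iq.1, p, iq.2) * (lam j iq : 𝕂) := by
        rw [hj] at h1
        simp only [ZeroMemClass.coe_zero, OneMemClass.coe_one, mul_one] at h1
        rw [hj]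
        exact eq_neg_of_add_eq_zero_left h1
      rw [h2]
      refine neg_mem (sum_mem fun iq hiq' => ?_)
      by_cases hiq2 : iq ∈ Finset.image a' Finset.univ
      · obtain ⟨j', -, rfl⟩ := Finset.mem_image.1 hiq2
        have hjj : j ≠ j' := by
          rintro rfl
          simp at hiq'
        rw [hlam, if_neg hjj]
        simp
      · exact mul_mem (hout iq hiq2) (hEF (lam j iq).2)
    · exact hout (i, q) hiq
  have hF : IntermediateField.adjoin Ω ((s1 ∪ s2 ∪ s3 : Finset 𝕂) : Set 𝕂) = ⊤ := by
    rw [eq_top_iff, ← hgen, IntermediateField.adjoin_le_iff]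
    rintro _ ⟨t, rfl⟩
    exact hTF t
  have hcount := card_le_of_adjoin T hT _ hF
  have hcard : (s1 ∪ s2 ∪ s3).card ≤ u * (r - u) + (N * u - 1) +
      (Fintype.card ι * N - Fintype.card κ') * N :=
    (Finset.card_union_le _ _).trans (add_le_add ((Finset.card_union_le _ _).trans
      (add_le_add hs1 hs2)) hs3)
  have hfr : Module.finrank 𝕂 (Submodule.span 𝕂 (Set.range fun iq : ι × Fin N =>
        ((b iq.1).map (algebraMap Ω 𝕂)).mulVec (φ iq.2))) ≤ Fintype.card κ' := by
    have hle : Submodule.span 𝕂 (Set.range fun iq : ι × Fin N =>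
        ((b iq.1).map (algebraMap Ω 𝕂)).mulVec (φ iq.2)) ≤
        Submodule.span 𝕂 (Set.range fun j : κ' => fun k => (w (a' j) k : 𝕂)) := by
      rw [Submodule.span_le]
      rintro _ ⟨iq, rfl⟩
      have h1 : w iq ∈ Submodule.span E (Set.range (w ∘ a')) := by
        rw [hspan']; exact Submodule.subset_span ⟨iq, rfl⟩
      have h2 : ∀ v ∈ Submodule.span E (Set.range (w ∘ a')),
          (fun k => (v k : 𝕂)) ∈
          Submodule.span 𝕂 (Set.range fun j : κ' => fun k => (w (a' j) k : 𝕂)) := by
        intro v hv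
        induction hv using Submodule.span_induction with
        | mem x hx => obtain ⟨j, rfl⟩ := hx; exact Submodule.subset_span ⟨j, rfl⟩
        | zero =>
          have h0' : (fun k => (((0 : Fin r → E) k : E) : 𝕂)) = 0 := by funext k; simp
          rw [h0']; exact Submodule.zero_mem _
        | add x y _ _ hx hy =>
          have h0' : (fun k => (((x + y) k : E) : 𝕂)) =
            (fun k => (x k : 𝕂)) + fun k => (y k : 𝕂) := by funext k; simp
          rw [h0']; exact Submodule.add_mem _ hx hy
        | smul e x _ hx =>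
          have h0' : (fun k => (((e • x) k : E) : 𝕂)) =
            (e : 𝕂) • (fun k => (x k : 𝕂)) := by funext k; simp
          rw [h0']; exact Submodule.smul_mem _ (e : 𝕂) hx
      have h3 := Submodule.smul_mem _ c⁻¹ (h2 _ h1)
      have h4 : c⁻¹ • (fun k => (w iq k : 𝕂)) =
          ((b iq.1).map (algebraMap Ω 𝕂)).mulVec (φ iq.2) := by
        funext k
        simp only [w, ψ, Matrix.mulVec_smul, Pi.smul_apply, smul_eq_mul]
        field_simp
      rwa [h4] at h3
    exact (Submodule.finrank_mono hle).trans (finrank_range_le_card _)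
  have hNu : 1 ≤ N * u := Nat.mul_pos (Fin.pos q0) (Fin.pos j0)
  have hσ : Fintype.card (ι × Fin N × Fin N) = Fintype.card ι * N * N := by
    simp [mul_assoc]
  rw [hσ] at hcount
  have h5 := hcount.trans hcard
  obtain ⟨m, hm⟩ := Nat.exists_eq_add_of_le hκ
  rw [hm, Nat.add_sub_cancel_left, add_mul] at h5
  calc _ ≤ N * Fintype.card κ' + 1 := by gcongr
    _ ≤ _ := by
      rw [mul_comm N (Fintype.card κ')]
      omega

end Trdeg

end Pool.Agent.T2C.H90
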