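import Pool.Agent.Lib.MP_c7af3c_ag.T2C.H90.Blowup

/-!
# MP_c7af3c_ag, project T2C: row BU
-/

set_option autoImplicit false

namespace Pool.Agent.T2C.H90

open MvPolynomial

section Spec

/-- Semicontinuity of the rank. -/
theorem rank_spec {Ω : Type} [Field Ω] {σ : Type} (𝕂 : Type) [Field 𝕂]
    [Algebra (MvPolynomial σ Ω) 𝕂] [IsFractionRing (MvPolynomial σ Ω) 𝕂]
    {κ : Type} [Fintype κ] {r : ℕ} (v : κ → Fin r → MvPolynomial σ Ω)
    (T : σ → Ω) :
    Module.finrank Ω (Submodule.span Ω (Set.range fun k l => eval T (v k l))) ≤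
      Module.finrank 𝕂 (Submodule.span 𝕂 (Set.range fun k l =>
          algebraMap (MvPolynomial σ Ω) 𝕂 (v k l))) := by
  classical
  obtain ⟨κ', a, ha, hspan, hli⟩ := exists_linearIndependent' Ω (fun k l => eval T (v k l))
  have hfin : Finite κ' := Finite.of_injective a ha
  have hfin' : Fintype κ' := Fintype.ofFinite κ'
  have h1 : Module.finrank Ω (Submodule.span Ω (Set.range fun k l => eval T (v k l))) =
      Fintype.card κ' := by
    rw [← hspan, finrank_span_eq_card hli]
  obtain ⟨g, hg⟩ := LinearMap.exists_leftInverse_of_injective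
    (Fintype.linearCombination Ω ((fun k l => eval T (v k l)) ∘ a)) (LinearMap.ker_eq_bot.2
      (linearIndependent_iff_injective_fintypeLinearCombination.1 hli))
  have hgv : ∀ j, g (fun l => eval T (v (a j) l)) = Pi.single j 1 := by
    intro j
    have h1 := LinearMap.congr_fun hg (Pi.single j 1)
    simp only [LinearMap.comp_apply, Fintype.linearCombination_apply, LinearMap.id_apply] at h1
    have h3 : (∑ i, (Pi.single j (1 : Ω) : κ' → Ω) i • ((fun k l => eval T (v k l)) ∘ a) i) =
        fun l => eval T (v (a j) l) := by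
      rw [Finset.sum_eq_single j]
      · simp
      · intro i _ hi; simp [Pi.single_apply, hi]
      · simp
    rw [h3] at h1
    exact h1
  -- the matrix
  let M : Matrix κ' κ' (MvPolynomial σ Ω) := fun i j =>
    ∑ l, C (g (Pi.single l 1) i) * v (a j) l
  have hM : (M.map (eval T)).det = 1 := by
    have : M.map (eval T) = 1 := by
      ext i j
      have h2 : (fun l => eval T (v (a j) l)) =
          ∑ l, eval T (v (a j) l) • (Pi.single l (1 : Ω) : Fin r → Ω) := by
        funext k
        simp [Finset.sum_apply, Pi.single_apply]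
      have h3 := congrFun (hgv j) i
      rw [h2, map_sum, Finset.sum_apply] at h3
      simp only [map_smul, Pi.smul_apply, smul_eq_mul] at h3
      simp only [Matrix.map_apply, M, map_sum, map_mul, eval_C, Matrix.one_apply]
      rw [Pi.single_apply] at h3
      rw [← h3]
      exact Finset.sum_congr rfl fun l _ => mul_comm _ _
    rw [this, Matrix.det_one]
  have hM' : M.det ≠ 0 := by
    intro h0
    have := congrArg (eval T) h0
    rw [RingHom.map_det, map_zero] at this
    change (M.map (eval T)).det = 0 at this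
    rw [hM] at this
    exact one_ne_zero this
  have hli' : LinearIndependent 𝕂 fun (j : κ') l =>
      algebraMap (MvPolynomial σ Ω) 𝕂 (v (a j) l) := by
    rw [Fintype.linearIndependent_iff]
    intro z hz
    by_contra hcon
    push Not at hcon
    have hz0 : z ≠ 0 := by
      intro h; obtain ⟨i, hi⟩ := hcon; exact hi (congrFun h i)
    have hdet : (M.map (algebraMap (MvPolynomial σ Ω) 𝕂)).det = 0 := by
      rw [← Matrix.exists_mulVec_eq_zero_iff]
      refine ⟨z, hz0, ?_⟩
      funext i
      simp only [Matrix.mulVec, dotProduct, Matrix.map_apply, M, map_sum, map_mul,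
        Pi.zero_apply, Finset.sum_mul]
      rw [Finset.sum_comm]
      refine Finset.sum_eq_zero fun l _ => ?_
      have h4 := congrFun hz l
      simp only [Finset.sum_apply, Pi.smul_apply, smul_eq_mul, Pi.zero_apply] at h4
      have h5 : ∀ j, algebraMap (MvPolynomial σ Ω) 𝕂 (C (g (Pi.single l 1) i)) *
          algebraMap (MvPolynomial σ Ω) 𝕂 (v (a j) l) * z j =
          algebraMap (MvPolynomial σ Ω) 𝕂 (C (g (Pi.single l 1) i)) *
          (z j * algebraMap (MvPolynomial σ Ω) 𝕂 (v (a j) l)) := fun j => by ring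
      simp_rw [h5]
      rw [← Finset.mul_sum, h4, mul_zero]
    have h6 : (M.map (algebraMap (MvPolynomial σ Ω) 𝕂)).det =
        algebraMap (MvPolynomial σ Ω) 𝕂 M.det := by
      rw [RingHom.map_det]; rfl
    rw [h6] at hdet
    exact hM' ((IsFractionRing.injective (MvPolynomial σ Ω) 𝕂) (by rw [hdet, map_zero]))
  rw [h1, ← finrank_span_eq_card hli']
  apply Submodule.finrank_mono
  apply Submodule.span_mono
  rintro _ ⟨j, rfl⟩
  exact ⟨a j, rfl⟩

/-- A subspace over the field of rational functions specialises to a subspace of the same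
dimension whose image is not larger. -/
theorem sub_spec {Ω : Type} [Field Ω] (σ : Type) (𝕂 : Type) [Field 𝕂]
    [Algebra (MvPolynomial σ Ω) 𝕂] [IsFractionRing (MvPolynomial σ Ω) 𝕂] [Algebra Ω 𝕂]
    [IsScalarTower Ω (MvPolynomial σ Ω) 𝕂] [Infinite Ω] {ι : Type} [Fintype ι] {r N : ℕ}
    (b : ι → Matrix (Fin r) (Fin r) Ω) (φ : Fin N → Fin r → 𝕂) (u : ℕ)
    (hu : Module.finrank 𝕂 (Submodule.span 𝕂 (Set.range φ)) = u) :
    ∃ w : Fin u → Fin r → Ω, LinearIndependent Ω w ∧
      Module.finrank Ω (Submodule.span Ω (Set.range fun ij : ι × Fin u =>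
        (b ij.1).mulVec (w ij.2))) ≤
      Module.finrank 𝕂
        (Submodule.span 𝕂 (Set.range fun iq : ι × Fin N =>
          ((b iq.1).map (algebraMap Ω 𝕂)).mulVec (φ iq.2))) := by
  classical
  have hco := exists_coord (Submodule.span 𝕂 (Set.range φ))
  have hbas : ∃ (a : Fin u → Fin r) (β : Fin u → Fin r → 𝕂),
      Function.Injective a ∧ (∀ j j', β j (a j') = if j = j' then 1 else 0) ∧
      (∀ j, β j ∈ Submodule.span 𝕂 (Set.range φ)) := by
    subst hu
    obtain ⟨a, β, ha, hβ, hrep⟩ := hco
    refine ⟨a, β, ha, hβ, ?_⟩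
    have hli : LinearIndependent 𝕂 β := by
      rw [Fintype.linearIndependent_iff]
      intro z hz i
      have := congrFun hz (a i)
      simpa [Finset.sum_apply, hβ] using this
    have hle : Submodule.span 𝕂 (Set.range φ) ≤ Submodule.span 𝕂 (Set.range β) := by
      intro w hw
      rw [hrep w hw]
      exact Submodule.sum_mem _ fun j _ => Submodule.smul_mem _ _ (Submodule.subset_span ⟨j, rfl⟩)
    have heq : Submodule.span 𝕂 (Set.range φ) = Submodule.span 𝕂 (Set.range β) := by
      apply Submodule.eq_of_le_of_finrank_eq hle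
      rw [finrank_span_eq_card hli, Fintype.card_fin]
    intro j
    rw [heq]
    exact Submodule.subset_span ⟨j, rfl⟩
  obtain ⟨a, β, ha, hβ, hβU⟩ := hbas
  obtain ⟨⟨h, hh⟩, hden⟩ := IsLocalization.exist_integer_multiples_of_finite
    (nonZeroDivisors (MvPolynomial σ Ω)) (fun jk : Fin u × Fin r => β jk.1 jk.2)
  choose p hp using fun j k => hden (j, k)
  have hp' : ∀ j k, algebraMap (MvPolynomial σ Ω) 𝕂 (p j k) =
      algebraMap (MvPolynomial σ Ω) 𝕂 h * β j k := by
    intro j k
    rw [hp j k, Algebra.smul_def]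
  have hh0 : h ≠ 0 := nonZeroDivisors.ne_zero hh
  obtain ⟨T, hT⟩ : ∃ T : σ → Ω, eval T h ≠ 0 := by
    by_contra hcon
    push Not at hcon
    exact hh0 (MvPolynomial.funext fun T => by rw [hcon T, map_zero])
  have hpa : ∀ j j', p j (a j') = if j = j' then h else 0 := by
    intro j j'
    apply IsFractionRing.injective (MvPolynomial σ Ω) 𝕂
    rw [hp', hβ]
    split_ifs <;> simp
  refine ⟨fun j k => eval T (p j k), ?_, ?_⟩
  · rw [Fintype.linearIndependent_iff]
    intro z hz i
    have := congrFun hz (a i)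
    simp only [Finset.sum_apply, Pi.smul_apply, smul_eq_mul, hpa, Pi.zero_apply] at this
    rw [Finset.sum_eq_single i] at this
    · simp only [if_true] at this
      exact (mul_eq_zero.1 this).resolve_right hT
    · intro j _ hj
      rw [if_neg hj, map_zero, mul_zero]
    · simp
  · have h1 := rank_spec 𝕂 (κ := ι × Fin u) (r := r) (fun ij k =>
      ∑ l, C (b ij.1 k l) * p ij.2 l) T
    have h2 : (fun ij : ι × Fin u => (b ij.1).mulVec (fun k => eval T (p ij.2 k))) =
        fun ij k => eval T (∑ l, C (b ij.1 k l) * p ij.2 l) := by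
      funext ij k
      simp [Matrix.mulVec, dotProduct]
    rw [h2]
    refine h1.trans (Submodule.finrank_mono ?_)
    rw [Submodule.span_le]
    rintro _ ⟨ij, rfl⟩
    have h3 : (fun l => algebraMap (MvPolynomial σ Ω) 𝕂 (∑ l_1, C (b ij.1 l l_1) * p ij.2 l_1)) =
        algebraMap (MvPolynomial σ Ω) 𝕂 h •
          ((b ij.1).map (algebraMap Ω 𝕂)).mulVec (β ij.2) := by
      funext k
      simp only [map_sum, map_mul, hp', Matrix.mulVec, dotProduct, Matrix.map_apply,
        Pi.smul_apply, smul_eq_mul, Finset.mul_sum]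
      refine Finset.sum_congr rfl fun l _ => ?_
      rw [IsScalarTower.algebraMap_apply Ω (MvPolynomial σ Ω) 𝕂, algebraMap_eq]
      ring
    change (fun l => algebraMap (MvPolynomial σ Ω) 𝕂 (∑ l_1, C (b ij.1 l l_1) * p ij.2 l_1)) ∈ _
    rw [h3]
    refine Submodule.smul_mem _ _ ?_
    have h4 : Submodule.map ((b ij.1).map (algebraMap Ω 𝕂)).mulVecLin
        (Submodule.span 𝕂 (Set.range φ)) ≤ Submodule.span 𝕂 (Set.range fun iq : ι × Fin N =>
          ((b iq.1).map (algebraMap Ω 𝕂)).mulVec (φ iq.2)) := by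
      rw [Submodule.map_span, Submodule.span_le]
      rintro _ ⟨_, ⟨q, rfl⟩, rfl⟩
      exact Submodule.subset_span ⟨(ij.1, q), rfl⟩
    exact h4 ⟨β ij.2, hβU ij.2, rfl⟩

end Spec

section Stable

/-- The generic blow-up of a stable space of matrices has no kernel. -/
theorem stable_det' {Ω : Type} [Field Ω] {ι : Type} [Fintype ι] {N : ℕ} (𝕂 : Type) [Field 𝕂]
    [Algebra (MvPolynomial (ι × Fin N × Fin N) Ω) 𝕂]
    [IsFractionRing (MvPolynomial (ι × Fin N × Fin N) Ω) 𝕂] [Algebra Ω 𝕂]
    [IsScalarTower Ω (MvPolynomial (ι × Fin N × Fin N) Ω) 𝕂] [Infinite Ω] [DecidableEq ι] {r : ℕ}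
    (b : ι → Matrix (Fin r) (Fin r) Ω) (hN : r * r ≤ N)
    (hb : ∀ u, ∀ w : Fin u → Fin r → Ω, LinearIndependent Ω w → 0 < u → min (u + 1) r ≤
      Module.finrank Ω (Submodule.span Ω (Set.range fun ij : ι × Fin u =>
        (b ij.1).mulVec (w ij.2)))) :
    (Matrix.of fun (pk ql : Fin N × Fin r) => ∑ i, X (i, pk.1, ql.1) * C (b i pk.2 ql.2) :
      Matrix (Fin N × Fin r) (Fin N × Fin r) (MvPolynomial (ι × Fin N × Fin N) Ω)).det ≠ 0 := by
  classical
  set M := (Matrix.of fun (pk ql : Fin N × Fin r) => ∑ i, X (i, pk.1, ql.1) * C (b i pk.2 ql.2) :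
      Matrix (Fin N × Fin r) (Fin N × Fin r) (MvPolynomial (ι × Fin N × Fin N) Ω)) with hM
  intro hdet
  have hdet' : (M.map (algebraMap (MvPolynomial (ι × Fin N × Fin N) Ω) 𝕂)).det = 0 := by
    have h6 : (M.map (algebraMap (MvPolynomial (ι × Fin N × Fin N) Ω) 𝕂)).det =
        algebraMap (MvPolynomial (ι × Fin N × Fin N) Ω) 𝕂 M.det := by
      rw [RingHom.map_det]; rfl
    rw [h6, hdet, map_zero]
  rw [← Matrix.exists_mulVec_eq_zero_iff] at hdet'
  obtain ⟨z, hz0, hz⟩ := hdet'
  let φ : Fin N → Fin r → 𝕂 := fun q l => z (q, l)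
  have hφ : φ ≠ 0 := by
    intro h; apply hz0; funext ql; exact congrFun (congrFun h ql.1) ql.2
  let T : ι × Fin N × Fin N → 𝕂 := fun t => algebraMap (MvPolynomial (ι × Fin N × Fin N) Ω) 𝕂 (X t)
  have hT : AlgebraicIndependent Ω T := by
    have h1 : AlgebraicIndependent Ω (X : ι × Fin N × Fin N → MvPolynomial (ι × Fin N × Fin N) Ω) :=
      MvPolynomial.algebraicIndependent_X _ _
    have h2 : Function.Injective (IsScalarTower.toAlgHom Ω (MvPolynomial (ι × Fin N × Fin N) Ω) 𝕂) :=
      IsFractionRing.injective (MvPolynomial (ι × Fin N × Fin N) Ω) 𝕂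
    exact h1.map' (f := IsScalarTower.toAlgHom Ω (MvPolynomial (ι × Fin N × Fin N) Ω) 𝕂) h2
  have hgen : IntermediateField.adjoin Ω (Set.range T) = ⊤ := by
    rw [eq_top_iff]
    rintro a -
    obtain ⟨n, d, hd, rfl⟩ := IsFractionRing.div_surjective (A := MvPolynomial (ι × Fin N × Fin N) Ω) a
    have h1 : ∀ m : MvPolynomial (ι × Fin N × Fin N) Ω,
        algebraMap _ 𝕂 m ∈ IntermediateField.adjoin Ω (Set.range T) := by
      intro m
      induction m using MvPolynomial.induction_on with
      | C a =>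
        have : algebraMap (MvPolynomial (ι × Fin N × Fin N) Ω) 𝕂 (C a) = algebraMap Ω 𝕂 a := by
          rw [IsScalarTower.algebraMap_apply Ω (MvPolynomial (ι × Fin N × Fin N) Ω) 𝕂,
            algebraMap_eq]
        rw [this]
        exact algebraMap_mem _ _
      | add p q hp hq => rw [map_add]; exact add_mem hp hq
      | mul_X p t hp =>
        rw [map_mul]
        exact mul_mem hp (IntermediateField.subset_adjoin _ _ ⟨t, rfl⟩)
    exact div_mem (h1 n) (h1 d)
  have hker : ∀ p k, ∑ iq : ι × Fin N, T (iq.1, p, iq.2) *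
      ((b iq.1).map (algebraMap Ω 𝕂)).mulVec (φ iq.2) k = 0 := by
    intro p k
    have h1 := congrFun hz (p, k)
    simp only [Matrix.mulVec, dotProduct, Matrix.map_apply, hM, Matrix.of_apply, map_sum,
      map_mul, Pi.zero_apply] at h1
    rw [Fintype.sum_prod_type] at h1
    rw [Fintype.sum_prod_type, Finset.sum_comm, ← h1]
    refine Finset.sum_congr rfl fun q _ => ?_
    simp only [Finset.sum_mul, Matrix.mulVec, dotProduct, Matrix.map_apply, Finset.mul_sum]
    rw [Finset.sum_comm]
    refine Finset.sum_congr rfl fun l _ => Finset.sum_congr rfl fun i _ => ?_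
    have h2 : algebraMap (MvPolynomial (ι × Fin N × Fin N) Ω) 𝕂 (C (b i k l)) =
        algebraMap Ω 𝕂 (b i k l) := by
      rw [IsScalarTower.algebraMap_apply Ω (MvPolynomial (ι × Fin N × Fin N) Ω) 𝕂, algebraMap_eq]
    rw [h2]
    simp only [T, φ]
    ring
  have hc := count b T hT hgen φ hφ hker
  have hule : Module.finrank 𝕂 (Submodule.span 𝕂 (Set.range φ)) ≤ r := by
    simpa using Submodule.finrank_le (Submodule.span 𝕂 (Set.range φ))
  obtain ⟨w, hw, hwle⟩ := sub_spec (ι × Fin N × Fin N) 𝕂 b φ _ rfl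
  have hpos : 0 < Module.finrank 𝕂 (Submodule.span 𝕂 (Set.range φ)) := by
    rw [Module.finrank_pos_iff_exists_ne_zero]
    obtain ⟨q, hq⟩ := Function.ne_iff.1 hφ
    exact ⟨⟨φ q, Submodule.subset_span ⟨q, rfl⟩⟩, fun h => hq (congrArg Subtype.val h)⟩
  have h3 := (hb _ w hw hpos).trans hwle
  generalize Module.finrank 𝕂 (Submodule.span 𝕂 (Set.range φ)) = u at hc hule hpos h3
  generalize Module.finrank 𝕂 (Submodule.span 𝕂 (Set.range fun iq : ι × Fin N =>
          ((b iq.1).map (algebraMap Ω 𝕂)).mulVec (φ iq.2))) = g at hc h3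
  rcases Nat.lt_or_ge u r with hur | hur
  · rw [min_eq_left (by omega)] at h3
    have h4 : N * (u + 1) ≤ N * g := Nat.mul_le_mul_left _ h3
    have h5 : u * (r - u) ≤ r * r := Nat.mul_le_mul hule (Nat.sub_le _ _)
    nlinarith
  · have h6 : u = r := le_antisymm hule hur
    subst h6
    rw [min_eq_right (by omega)] at h3
    have h4 : N * u ≤ N * g := Nat.mul_le_mul_left _ h3
    simp at hc
    omega

end Stable

section Good

variable {Ω : Type} [Field Ω] {ι : Type} [Fintype ι]

/-- the blow-up is injective outside the zeros of a nonzero polynomial -/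
def Good (N : ℕ) {U Q : Type} [AddCommGroup U] [Module Ω U] [AddCommGroup Q] [Module Ω Q]
    (b : ι → U →ₗ[Ω] Q) : Prop :=
  ∃ P : MvPolynomial (ι × Fin N × Fin N) Ω, P ≠ 0 ∧ ∀ T, eval T P ≠ 0 → ∀ φ : Fin N → U,
    (∀ p, ∑ i, ∑ q, T (i, p, q) • b i (φ q) = 0) → φ = 0

theorem good_stable [Infinite Ω] (N r : ℕ) (U Q : Type) [AddCommGroup U] [Module Ω U]
    [AddCommGroup Q] [Module Ω Q] [FiniteDimensional Ω U] [FiniteDimensional Ω Q]
    (b : ι → U →ₗ[Ω] Q) (hU : Module.finrank Ω U = r) (hQ : Module.finrank Ω Q = r)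
    (hN : r * r ≤ N) (hb : ∀ U' : Submodule Ω U, U' ≠ ⊥ → min (Module.finrank Ω U' + 1) r ≤
      Module.finrank Ω (⨆ i, U'.map (b i) : Submodule Ω Q)) : Good N b := by
  classical
  let e : U ≃ₗ[Ω] (Fin r → Ω) := LinearEquiv.ofFinrankEq _ _ (by simp [hU])
  let e' : Q ≃ₗ[Ω] (Fin r → Ω) := LinearEquiv.ofFinrankEq _ _ (by simp [hQ])
  let B : ι → Matrix (Fin r) (Fin r) Ω := fun i =>
    LinearMap.toMatrix' (e'.toLinearMap ∘ₗ b i ∘ₗ e.symm.toLinearMap)
  have hB : ∀ i v, (B i).mulVec v = e' (b i (e.symm v)) := by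
    intro i v
    simp only [B]
    rw [LinearMap.toMatrix'_mulVec]
    rfl
  refine ⟨_, stable_det' (FractionRing (MvPolynomial (ι × Fin N × Fin N) Ω)) B hN ?_, ?_⟩
  · intro u w hw hu
    set U' : Submodule Ω U := Submodule.span Ω (Set.range fun j => e.symm (w j)) with hU'
    have hli : LinearIndependent Ω fun j => e.symm (w j) :=
      hw.map' e.symm.toLinearMap (LinearMap.ker_eq_bot.2 e.symm.injective)
    have h1 : Module.finrank Ω U' = u := by
      rw [hU', finrank_span_eq_card hli, Fintype.card_fin]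
    have h2 : U' ≠ ⊥ := by
      intro h
      rw [h, finrank_bot] at h1
      omega
    have h3 := hb U' h2
    rw [h1] at h3
    refine h3.trans ?_
    rw [← LinearEquiv.finrank_map_eq e' (⨆ i, U'.map (b i))]
    apply Submodule.finrank_mono
    rw [Submodule.map_iSup, iSup_le_iff]
    intro i
    rw [hU', Submodule.map_span, Submodule.map_span, Submodule.span_le]
    rintro _ ⟨_, ⟨_, ⟨j, rfl⟩, rfl⟩, rfl⟩
    apply Submodule.subset_span
    exact ⟨(i, j), hB i (w j)⟩
  · intro T hT φ hφ
    by_contra hcon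
    apply hT
    rw [RingHom.map_det]
    rw [← Matrix.exists_mulVec_eq_zero_iff]
    refine ⟨fun ql => e (φ ql.1) ql.2, ?_, ?_⟩
    · intro h
      apply hcon
      funext q
      apply e.injective
      rw [Pi.zero_apply, map_zero]
      funext l
      exact congrFun h (q, l)
    · funext pk
      have h1 := congrFun (congrArg e' (hφ pk.1)) pk.2
      rw [map_zero, Pi.zero_apply, map_sum, Finset.sum_apply] at h1
      rw [Pi.zero_apply, ← h1]
      have h2 : ∀ i, (e' (∑ q, T (i, pk.1, q) • b i (φ q))) pk.2 =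
          ∑ q, ∑ l, T (i, pk.1, q) * B i pk.2 l * e (φ q) l := by
        intro i
        rw [map_sum, Finset.sum_apply]
        refine Finset.sum_congr rfl fun q _ => ?_
        rw [map_smul, Pi.smul_apply, smul_eq_mul]
        have h3 := congrFun (hB i (e (φ q))) pk.2
        rw [LinearEquiv.symm_apply_apply] at h3
        rw [← h3]
        simp only [Matrix.mulVec, dotProduct, Finset.mul_sum, mul_assoc]
      simp_rw [h2]
      have h4 : ∀ ql : Fin N × Fin r, (eval T).mapMatrix (Matrix.of fun (pk ql : Fin N × Fin r) =>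
          ∑ i, X (i, pk.1, ql.1) * C (B i pk.2 ql.2)) pk ql =
          ∑ i, T (i, pk.1, ql.1) * B i pk.2 ql.2 := by
        intro ql
        rw [RingHom.mapMatrix_apply, Matrix.map_apply, Matrix.of_apply, map_sum]
        refine Finset.sum_congr rfl fun i _ => ?_
        rw [map_mul, eval_X, eval_C]
      change ∑ ql : Fin N × Fin r, _ * e (φ ql.1) ql.2 = _
      simp_rw [h4]
      rw [Fintype.sum_prod_type]
      simp_rw [Finset.sum_mul]
      have h5 : ∀ q : Fin N, ∑ l : Fin r, ∑ i, T (i, pk.1, q) * B i pk.2 l * e (φ q) l =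
          ∑ i, ∑ l : Fin r, T (i, pk.1, q) * B i pk.2 l * e (φ q) l := fun q =>
        Finset.sum_comm
      simp_rw [h5]
      rw [Finset.sum_comm]

/-- Hall's condition implies that the generic blow-up is bijective. -/
theorem good_of_hall [Infinite Ω] (N : ℕ) : ∀ r, r * r ≤ N → ∀ (U Q : Type) [AddCommGroup U]
    [Module Ω U] [AddCommGroup Q] [Module Ω Q] [FiniteDimensional Ω U] [FiniteDimensional Ω Q]
    (b : ι → U →ₗ[Ω] Q), Module.finrank Ω U = r → Module.finrank Ω Q = r →
    (∀ U' : Submodule Ω U, Module.finrank Ω U' ≤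
      Module.finrank Ω (⨆ i, U'.map (b i) : Submodule Ω Q)) → Good N b := by
  classical
  intro r
  induction r using Nat.strong_induction_on with
  | _ r ih =>
  intro hN U Q _ _ _ _ _ _ b hU hQ hall
  by_cases hex : ∃ U' : Submodule Ω U, U' ≠ ⊥ ∧ U' ≠ ⊤ ∧
      Module.finrank Ω (⨆ i, U'.map (b i) : Submodule Ω Q) ≤ Module.finrank Ω U'
  · obtain ⟨U', hbot, htop, hle⟩ := hex
    set G : Submodule Ω Q := ⨆ i, U'.map (b i) with hG
    have hGeq : Module.finrank Ω G = Module.finrank Ω U' := le_antisymm hle (hall U')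
    have hbG : ∀ i, ∀ x ∈ U', b i x ∈ G := fun i x hx =>
      (le_iSup (fun i => U'.map (b i)) i) ⟨x, hx, rfl⟩
    have hU1 : 0 < Module.finrank Ω U' := by
      rw [Nat.pos_iff_ne_zero]
      intro h
      exact hbot (Submodule.finrank_eq_zero.1 h)
    have hU2 : Module.finrank Ω U' < r := by
      rw [← hU]
      exact Submodule.finrank_lt htop
    -- the subspace
    let b' : ι → U' →ₗ[Ω] G := fun i => (b i).restrict (hbG i)
    have h1 : Good N b' := by
      refine ih _ hU2 ((Nat.mul_le_mul hU2.le hU2.le).trans hN) U' G b' rfl hGeq ?_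
      intro V
      have h2 := hall (V.map U'.subtype)
      rw [Submodule.finrank_map_subtype_eq] at h2
      refine h2.trans ?_
      rw [← Submodule.finrank_map_subtype_eq G (⨆ i, V.map (b' i))]
      apply Submodule.finrank_mono
      rw [iSup_le_iff]
      rintro i _ ⟨_, ⟨v, hv, rfl⟩, rfl⟩
      exact ⟨b' i v, (le_iSup (fun i => V.map (b' i)) i) ⟨v, hv, rfl⟩, rfl⟩
    -- the quotient
    let b'' : ι → (U ⧸ U') →ₗ[Ω] (Q ⧸ G) := fun i => Submodule.mapQ U' G (b i) (hbG i)
    have hq1 := Submodule.finrank_quotient_add_finrank U'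
    have hq2 := Submodule.finrank_quotient_add_finrank G
    have h3 : Good N b'' := by
      refine ih (Module.finrank Ω (U ⧸ U')) (by omega) ?_ (U ⧸ U') (Q ⧸ G) b'' rfl (by omega) ?_
      · have : Module.finrank Ω (U ⧸ U') ≤ r := by omega
        exact (Nat.mul_le_mul this this).trans hN
      · intro V
        have h4 := hall (V.comap U'.mkQ)
        have h5 : Module.finrank Ω (V.comap U'.mkQ) = Module.finrank Ω V +
            Module.finrank Ω U' := by
          have hc : (V.comap U'.mkQ).map U'.mkQ = V :=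
            Submodule.map_comap_eq_of_surjective (Submodule.mkQ_surjective U') V
          have h6 := LinearMap.finrank_range_add_finrank_ker (U'.mkQ.domRestrict (V.comap U'.mkQ))
          rw [LinearMap.range_domRestrict, hc] at h6
          have h7 : Module.finrank Ω (LinearMap.ker (U'.mkQ.domRestrict (V.comap U'.mkQ))) =
              Module.finrank Ω U' := by
            rw [LinearMap.ker_domRestrict, Submodule.ker_mkQ]
            have h8 : U' ≤ V.comap U'.mkQ := by
              intro x hx
              rw [Submodule.mem_comap, (Submodule.Quotient.mk_eq_zero U').2 hx |> fun h => (h : U'.mkQ x = 0)]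
              exact V.zero_mem
            exact LinearEquiv.finrank_eq (Submodule.comapSubtypeEquivOfLe h8)
          omega
        set W : Submodule Ω Q := ⨆ i, (V.comap U'.mkQ).map (b i) with hW
        have hGW : G ≤ W := by
          rw [hG, iSup_le_iff]
          rintro i _ ⟨x, hx, rfl⟩
          refine (le_iSup (fun i => (V.comap U'.mkQ).map (b i)) i) ⟨x, ?_, rfl⟩
          change U'.mkQ x ∈ V
          rw [show U'.mkQ x = 0 from (Submodule.Quotient.mk_eq_zero U').2 hx]
          exact V.zero_mem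
        have h9 : W.map G.mkQ ≤ ⨆ i, V.map (b'' i) := by
          rw [hW, Submodule.map_iSup, iSup_le_iff]
          rintro i _ ⟨_, ⟨x, hx, rfl⟩, rfl⟩
          exact (le_iSup (fun i => V.map (b'' i)) i) ⟨U'.mkQ x, hx, rfl⟩
        have h10 : Module.finrank Ω (W.map G.mkQ) + Module.finrank Ω G = Module.finrank Ω W := by
          have h6 := LinearMap.finrank_range_add_finrank_ker (G.mkQ.domRestrict W)
          rw [LinearMap.range_domRestrict] at h6
          have h7 : Module.finrank Ω (LinearMap.ker (G.mkQ.domRestrict W)) =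
              Module.finrank Ω G := by
            rw [LinearMap.ker_domRestrict, Submodule.ker_mkQ]
            exact LinearEquiv.finrank_eq (Submodule.comapSubtypeEquivOfLe hGW)
          omega
        have h11 := Submodule.finrank_mono h9
        omega
    obtain ⟨P', hP', hT'⟩ := h1
    obtain ⟨P'', hP'', hT''⟩ := h3
    refine ⟨P' * P'', mul_ne_zero hP' hP'', ?_⟩
    intro T hT φ hφ
    rw [map_mul] at hT
    have h12 := hT'' T (right_ne_zero_of_mul hT) (fun q => U'.mkQ (φ q)) (by
      intro p
      have h13 := congrArg G.mkQ (hφ p)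
      rw [map_zero, map_sum] at h13
      rw [← h13]
      refine Finset.sum_congr rfl fun i _ => ?_
      rw [map_sum]
      refine Finset.sum_congr rfl fun q _ => ?_
      rw [map_smul]
      rfl)
    have h14 : ∀ q, φ q ∈ U' := fun q =>
      (Submodule.Quotient.mk_eq_zero U').1 (congrFun h12 q)
    have h15 := hT' T (left_ne_zero_of_mul hT) (fun q => ⟨φ q, h14 q⟩) (by
      intro p
      apply Subtype.ext
      rw [ZeroMemClass.coe_zero, ← hφ p]
      push_cast
      rfl)
    funext q
    exact congrArg Subtype.val (congrFun h15 q)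
  · push Not at hex
    refine good_stable N r U Q b hU hQ hN ?_
    intro U' hU'
    by_cases htop : U' = ⊤
    · have := hall U'
      rw [htop, finrank_top, hU] at this
      rw [htop]
      exact (min_le_right _ _).trans this
    · exact (min_le_left _ _).trans (hex U' hU' htop)

end Good

end Pool.Agent.T2C.H90
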